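import Pool.Agent.W_448e_h97.EB

/-! The matching polynomial of every piece of a level is one (MP_448cb3_co). -/

namespace Pool.Agent.GaussPoset.Mp

set_option linter.unusedSectionVars false

open Finset Win St Polynomial

universe u

variable {P : Type u} [Fintype P] [PartialOrder P] [DecidableEq P] {r i : ℕ}

/-- a set of elements of level `i` without defect to the other elements of the level -/
structure Pce (P : Type u) [Fintype P] [PartialOrder P] [DecidableEq P] (i : ℕ) (W : Finset P) :
    Prop where
  sub : W ⊆ lv P i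
  zero : ∀ u ∈ W, ∀ w, lev w = i → w ∉ W → Df i {u, w} = 0

/-- the matching polynomial of a piece is one -/
theorem mp_piece (H : Gr P r) (hi : i ≤ r) {W : Finset P} (h : Pce P i W) : mp (Df i) W = 1 := by
  refine mp_left (W := lv P i \ W) disjoint_sdiff ?_ ?_
  · intro u hu w hw
    rw [mem_sdiff, mem_lv] at hw
    exact h.zero u hu w hw.1 hw.2
  · rw [union_sdiff_of_subset h.sub]
    exact EK.mp_lv H hi

/-- the signed number of double near elements with both sites in a piece vanishes -/
theorem piece_lin (H : Gr P r) (hi : i ≤ r) {W : Finset P} (h : Pce P i W) :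
    ∑ u ∈ W, ∑ w ∈ W.erase u, Df i {u, w} = 0 := P2_eq_zero (mp_piece H hi h)

/-- the squares of the signed degrees of a piece -/
theorem piece_quad (H : Gr P r) (hi : i ≤ r) {W : Finset P} (h : Pce P i W) :
    2 * ∑ u ∈ W, (∑ w ∈ W.erase u, Df i {u, w}) ^ 2 =
      ∑ u ∈ W, ∑ w ∈ W.erase u, Df i {u, w} ^ 2 := sq_eq (mp_piece H hi h)

/-- a piece with two elements has no defect -/
theorem piece_pair (H : Gr P r) (hi : i ≤ r) {u w : P} (hne : u ≠ w) (h : Pce P i {u, w}) :
    Df i {u, w} = 0 := by
  have h1 := piece_lin H hi h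
  rw [sum_pair hne, erase_insert (by simpa using hne), pair_comm u w,
    erase_insert (by simpa using hne.symm), sum_singleton, sum_singleton, pair_comm w u] at h1
  omega

/-- a piece with three elements -/
theorem piece_three (H : Gr P r) (hi : i ≤ r) {u v w : P} (huv : u ≠ v) (huw : u ≠ w)
    (hvw : v ≠ w) (h : Pce P i {u, v, w}) :
    Df i {u, v} + Df i {u, w} + Df i {v, w} = 0 := by
  have h1 := piece_lin H hi h
  have e1 : ({u, v, w} : Finset P).erase u = {v, w} := erase_insert (by simp [huv, huw])
  have e2 : ({u, v, w} : Finset P).erase v = {u, w} := by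
    ext x
    simp only [mem_erase, mem_insert, mem_singleton]
    constructor
    · rintro ⟨h1, h2⟩
      tauto
    · rintro (rfl | rfl)
      · exact ⟨huv, Or.inl rfl⟩
      · exact ⟨hvw.symm, Or.inr (Or.inr rfl)⟩
  have e3 : ({u, v, w} : Finset P).erase w = {u, v} := by
    ext x
    simp only [mem_erase, mem_insert, mem_singleton]
    constructor
    · rintro ⟨h1, h2⟩
      tauto
    · rintro (rfl | rfl)
      · exact ⟨huw, Or.inl rfl⟩
      · exact ⟨hvw, Or.inr (Or.inl rfl)⟩
  rw [sum_insert (by simp [huv, huw]), sum_pair hvw, e1, e2, e3, sum_pair hvw, sum_pair huw,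
    sum_pair huv, pair_comm v u, pair_comm w u, pair_comm w v] at h1
  omega

/-- the defect of a pair -/
lemma Df_val (H : Gr P r) {u w : P} (hu : lev u = i) (hne : u ≠ w) :
    Df i {u, w} = (dcv u w : ℤ) - ucv u w := Df_pair H hu hne

/-- an isolated pair has as many common lower covers as common upper covers -/
theorem pair_eq (H : Gr P r) (hi : i ≤ r) {u w : P} (hu : lev u = i) (hw : lev w = i)
    (hne : u ≠ w) (h : ∀ v, lev v = i → v ≠ u → v ≠ w → Df i {u, v} = 0 ∧ Df i {w, v} = 0) :
    dcv u w = ucv u w := by
  have h1 : Pce P i {u, w} := by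
    refine ⟨?_, ?_⟩
    · intro x hx
      rw [mem_insert, mem_singleton] at hx
      rw [mem_lv]
      rcases hx with rfl | rfl
      · exact hu
      · exact hw
    · intro x hx v hv hn
      rw [mem_insert, mem_singleton, not_or] at hn
      rw [mem_insert, mem_singleton] at hx
      rcases hx with rfl | rfl
      · exact (h v hv hn.1 hn.2).1
      · exact (h v hv hn.1 hn.2).2
  have h2 := piece_pair H hi hne h1
  rw [Df_val H hu hne] at h2
  omega

end Pool.Agent.GaussPoset.Mp
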